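import Pool.Agent.N20.DI.Om
import Pool.Agent.N20.EW.Stm
import Pool.Agent.Y210.NV2.NQ

/-!
Project EW, part DZR: the weights of a central `p`-subgroup of a cyclic extension.
-/

set_option autoImplicit false
set_option linter.unusedSectionVars false

open scoped Classical BigOperators

noncomputable section

namespace Pool.Agent.N348.EWDZR

open Pool.Agent.Y63.NV
open Pool.Agent.Y63.KR
open Pool.Agent.Y63.AWC (IsIrreducibleCharacter)
open Pool.Agent.N20.EW
open Pool.Agent.N20.DI (S_CLIFF S_LIN Kd Dg HasDef sN dg_le Dg_iff dg_comp fs_sub)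
open Pool.Agent.N20.KB (irr_comp')

section

variable {F : Type} [Field F] {C M : Type} [Group C] [Group M] [Finite C] [Finite M]

theorem cyc_quot {j : C →* M} {z : M → F} (hE : CycExt j z) [j.range.Normal] :
    IsCyclic (M ⧸ j.range) := by
  obtain ⟨t, ht⟩ := hE.cyc
  refine ⟨⟨(t : M ⧸ j.range), fun y => ?_⟩⟩
  obtain ⟨x, rfl⟩ := QuotientGroup.mk_surjective y
  obtain ⟨n, g, hx⟩ := ht x
  refine ⟨n, ?_⟩
  have h1 : ((j g : M) : M ⧸ j.range) = 1 :=
    (QuotientGroup.eq_one_iff (N := j.range) (j g)).2 (MonoidHom.mem_range.2 ⟨g, rfl⟩)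
  show ((t : M ⧸ j.range)) ^ n = (x : M ⧸ j.range)
  rw [hx, QuotientGroup.mk_mul, QuotientGroup.mk_zpow, h1, mul_one]

theorem com_mem {j : C →* M} {z : M → F} (hE : CycExt j z) (a b : M) :
    a * b * a⁻¹ * b⁻¹ ∈ j.range := by
  have := hE.normal
  have := cyc_quot hE
  rw [← QuotientGroup.eq_one_iff]
  obtain ⟨t, ht⟩ := IsCyclic.exists_generator (α := M ⧸ j.range)
  obtain ⟨n, hn⟩ := ht (a : M ⧸ j.range)
  obtain ⟨m, hm⟩ := ht (b : M ⧸ j.range)
  have h1 : ((a * b * a⁻¹ * b⁻¹ : M) : M ⧸ j.range) =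
      (a : M ⧸ j.range) * (b : M ⧸ j.range) * (a : M ⧸ j.range)⁻¹ * (b : M ⧸ j.range)⁻¹ := rfl
  rw [h1, ← hn, ← hm]
  show t ^ n * t ^ m * (t ^ n)⁻¹ * (t ^ m)⁻¹ = 1
  group

/-- `S_CLIFF` for an embedded normal subgroup -/
theorem cliff_emb (h4 : S_CLIFF) {p : ℕ} (red : integralClosure ℤ ℂ →+* F) (j : C →* M)
    (z : M → F) (hE : CycExt j z) (c : F) (D : ℕ) :
    Nat.card M * Nat.card C * Kd p red D z c =
      ∑ᶠ θ : {θ : C → ℂ // IsIrreducibleCharacter θ ∧ Dg p D (stc j θ) θ ∧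
        centralValue red θ (fun x => z (j x)) = c}, (stc j θ.1) ^ 2 := by
  have := hE.normal
  have hcy := cyc_quot hE
  let e : C ≃* j.range := MonoidHom.ofInjective hE.inj
  have h1 := h4 p F red M j.range hcy z hE.cl hE.supp c D
  have h2 : Nat.card j.range = Nat.card C := (Nat.card_congr e.toEquiv).symm
  rw [h2] at h1
  rw [h1]
  have ha : ∀ n : j.range, j (e.symm n) = n := fun n =>
    congrArg Subtype.val (e.apply_symm_apply n)
  have hst : ∀ θ : C → ℂ, sN j.range (fun x => θ (e.symm x)) = stc j θ := by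
    intro θ
    unfold sN stc
    refine Nat.card_congr (Equiv.subtypeEquivRight fun m => ?_)
    constructor
    · intro h x y hxy
      have h3 : θ (e.symm (e y)) = θ (e.symm (e x)) := h (e x) (e y) hxy
      rwa [e.symm_apply_apply, e.symm_apply_apply] at h3
    · intro h n n' hn
      refine h _ _ ?_
      rw [ha, ha]
      exact hn
  have hcl : IsClassFun (fun x : C => z (j x)) := by
    intro g x
    show z (j (g * x * g⁻¹)) = z (j x)
    rw [map_mul, map_mul, map_inv]
    exact hE.cl _ _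
  have hcv : ∀ θ : C → ℂ, IsIrreducibleCharacter θ →
      centralValue red (fun x : j.range => θ (e.symm x)) (fun n : j.range => z n) =
        centralValue red θ (fun x => z (j x)) := by
    intro θ hθ
    have h3 := Pool.Agent.Y286.NV.centralValue_comp red e.symm θ
      (Pool.Agent.Y286.NV.irr_class hθ) (fun x : C => z (j x)) hcl
    rw [← h3]
    congr 1
    funext n
    show z n = z (j (e.symm n))
    rw [ha]
  symm
  refine finsum_eq_of_bijective (fun θ : {θ : C → ℂ // IsIrreducibleCharacter θ ∧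
    Dg p D (stc j θ) θ ∧ centralValue red θ (fun x => z (j x)) = c} =>
    (⟨fun x => θ.1 (e.symm x), irr_comp' e.symm θ.2.1, ?_, ?_⟩ :
      {ψ : j.range → ℂ // IsIrreducibleCharacter ψ ∧ Dg p D (sN j.range ψ) ψ ∧
        centralValue red ψ (fun n : j.range => z n) = c})) ⟨?_, ?_⟩ ?_
  · rw [dg_comp e.symm, hst]
    exact θ.2.2.1
  · rw [hcv θ.1 θ.2.1]
    exact θ.2.2.2
  · intro ψ ψ' h
    apply Subtype.ext
    funext x
    have h3 := congrFun (congrArg Subtype.val h) (e x)
    change ψ.1 (e.symm (e x)) = ψ'.1 (e.symm (e x)) at h3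
    rw [e.symm_apply_apply] at h3
    exact h3
  · rintro ⟨ψ, h3, h5, h6⟩
    have h7 : (fun x => (fun y => ψ (e y)) (e.symm x)) = ψ := by
      funext x
      change ψ (e (e.symm x)) = ψ x
      rw [e.apply_symm_apply]
    have h8 : IsIrreducibleCharacter (fun y => ψ (e y)) := irr_comp' e h3
    refine ⟨⟨fun y => ψ (e y), h8, ?_, ?_⟩, Subtype.ext h7⟩
    · rw [dg_comp e, ← hst (fun y => ψ (e y))]
      rw [h7]
      exact h5
    · rw [← hcv (fun y => ψ (e y)) h8, h7]
      exact h6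
  · intro θ
    show (stc j θ.1) ^ 2 = (sN j.range (fun x => θ.1 (e.symm x))) ^ 2
    rw [hst]

/-- the stabiliser of a function -/
def stK (j : C →* M) (hi : Function.Injective j) (hn : j.range.Normal) {X : Type} (θ : C → X) :
    Subgroup M where
  carrier := {m | ∀ x y : C, j y = m * j x * m⁻¹ → θ y = θ x}
  one_mem' := by
    intro x y h
    rw [one_mul, inv_one, mul_one] at h
    rw [hi h]
  mul_mem' := by
    intro a b ha hb x y h
    obtain ⟨x', hx'⟩ := hn.conj_mem (j x) ⟨x, rfl⟩ b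
    rw [← hb x x' hx']
    refine ha x' y ?_
    rw [h, hx']
    group
  inv_mem' := by
    intro a ha x y h
    refine (ha y x ?_).symm
    rw [h]
    group

theorem mem_stK {j : C →* M} {hi : Function.Injective j} {hn : j.range.Normal} {X : Type}
    {θ : C → X} {m : M} :
    m ∈ stK j hi hn θ ↔ ∀ x y : C, j y = m * j x * m⁻¹ → θ y = θ x := Iff.rfl

theorem card_stK (j : C →* M) (hi : Function.Injective j) (hn : j.range.Normal) {X : Type}
    (θ : C → X) : Nat.card (stK j hi hn θ) = stc j θ := rfl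

theorem range_le_stK {j : C →* M} {hi : Function.Injective j} {hn : j.range.Normal} {X : Type}
    {θ : C → X} (hθ : ∀ g x : C, θ (g * x * g⁻¹) = θ x) : j.range ≤ stK j hi hn θ := by
  rintro _ ⟨g, rfl⟩ x y h
  have h1 : y = g * x * g⁻¹ := by
    apply hi
    rw [h, map_mul, map_mul, map_inv]
  rw [h1, hθ]

theorem stc_eq {j : C →* M} (hi : Function.Injective j) (hn : j.range.Normal) {X : Type}
    {θ : C → X} (hθ : ∀ g x : C, θ (g * x * g⁻¹) = θ x) :
    stc j θ = Nat.card C * tt j θ ∧ tt j θ = j.range.relIndex (stK j hi hn θ) := by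
  have h1 := Subgroup.relIndex_mul_relIndex (⊥ : Subgroup M) j.range (stK j hi hn θ) bot_le
    (range_le_stK hθ)
  rw [Subgroup.relIndex_bot_left, Subgroup.relIndex_bot_left, card_stK] at h1
  have h2 : Nat.card j.range = Nat.card C :=
    (Nat.card_congr (MonoidHom.ofInjective hi).toEquiv).symm
  rw [h2] at h1
  have h3 : tt j θ = j.range.relIndex (stK j hi hn θ) := by
    unfold tt
    rw [← h1, Nat.mul_div_cancel_left _ Nat.card_pos]
  exact ⟨by rw [h3, h1], h3⟩

theorem nw_bot (p : ℕ) (red : integralClosure ℤ ℂ →+* F) (f : M → F) (c : F) :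
    Nw p red (⊥ : Subgroup M) f c = Kd p red 0 f c := by
  unfold Nw Kd
  refine Nat.card_congr (Equiv.subtypeEquivRight fun χ => ?_)
  have h1 : Nat.card (⊥ : Subgroup M) = 1 := Subgroup.card_bot
  constructor
  · rintro ⟨h, h2⟩
    obtain ⟨n, hn, h3⟩ := h.defectZero
    rw [h1, Nat.factorization_one, Finsupp.zero_apply] at h3
    exact ⟨h.irr, ⟨n, hn, h3⟩, h2⟩
  · rintro ⟨h, ⟨n, hn, h3⟩, h2⟩
    refine ⟨⟨h, ?_, n, hn, ?_⟩, h2⟩
    · intro q hq x
      rw [Subgroup.mem_bot.1 hq, one_mul]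
    · rw [h1, Nat.factorization_one, Finsupp.zero_apply]
      exact h3

theorem wt_bot_iff {p : ℕ} {θ : C → ℂ} (h : IsIrreducibleCharacter θ) :
    IsWt p (⊥ : Subgroup C) θ ↔ (dg θ).factorization p = (Nat.card C).factorization p := by
  have _i : Fintype C := Fintype.ofFinite C
  have h1 : Nat.card (⊥ : Subgroup C) = 1 := Subgroup.card_bot
  constructor
  · intro h2
    obtain ⟨n, hn, h3⟩ := h2.defectZero
    rw [h1, Nat.factorization_one, Finsupp.zero_apply, add_zero] at h3
    have h4 := (dg_spec (chi := θ) h).1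
    rw [hn] at h4
    have h5 : n = dg θ := by exact_mod_cast h4
    rw [← h5]
    exact h3
  · intro h2
    refine ⟨h, ?_, dg θ, (dg_spec (chi := θ) h).1, ?_⟩
    · intro q hq x
      rw [Subgroup.mem_bot.1 hq, one_mul]
    · rw [h1, Nat.factorization_one, Finsupp.zero_apply, add_zero]
      exact h2

theorem irr_cl {θ : C → ℂ} (h : IsIrreducibleCharacter θ) (g x : C) : θ (g * x * g⁻¹) = θ x := by
  have _i : Fintype C := Fintype.ofFinite C
  exact Pool.Agent.Y930.NV.irr_Cf h g x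

theorem irr_cv_fin (P : (C → ℂ) → Prop)
    (hP : ∀ θ, P θ → IsIrreducibleCharacter θ) : Finite {θ : C → ℂ // P θ} := by
  have hX := Pool.Agent.Y171.NV.irr_fin C
  exact Finite.of_injective (fun χ : {θ : C → ℂ // P θ} =>
    (⟨χ.1, hP χ.1 χ.2⟩ : {χ : C → ℂ // IsIrreducibleCharacter χ}))
    (fun a b h => Subtype.ext (congrArg (fun t => t.1) h))

/-- **part A** -/
theorem partA (h4 : S_CLIFF) (h5 : S_INF) (h6 : S_LIN) {p : ℕ} [Fact p.Prime]
    (red : integralClosure ℤ ℂ →+* F) (j : C →* M) (z : M → F) (hE : CycExt j z) (c : F) (k : ℕ)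
    (Q : Subgroup M) (hQn : Q.Normal) (hQc : Nat.card Q = p ^ k) (hQ : Q ⊓ j.range = ⊥) :
    Nat.card M * Nw p red Q z c =
      ∑ᶠ θ : {θ : C → ℂ // IsWt p (⊥ : Subgroup C) θ ∧
        centralValue red θ (fun x => z (j x)) = c},
        if (tt j θ.1).factorization p = k then Nat.card C * pc p (tt j θ.1) else 0 := by
  have hn := hE.normal
  have hp : p.Prime := Fact.out
  have hcen : ∀ q ∈ Q, ∀ y : M, y * q = q * y := by
    intro q hq y
    have h1 : y * q * y⁻¹ * q⁻¹ ∈ Q ⊓ j.range :=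
      Subgroup.mem_inf.2 ⟨Q.mul_mem (hQn.conj_mem q hq y) (Q.inv_mem hq), com_mem hE y q⟩
    rw [hQ, Subgroup.mem_bot] at h1
    calc y * q = y * q * y⁻¹ * q⁻¹ * q * y := by group
      _ = q * y := by rw [h1, one_mul]
  let π : M →* M ⧸ Q := QuotientGroup.mk' Q
  have hπ : Function.Surjective π := QuotientGroup.mk'_surjective Q
  have hker : π.ker = Q := QuotientGroup.ker_mk' Q
  have a1 := h6 p F red M (M ⧸ Q) π hπ (by
    rw [hker]
    intro q hq
    rw [Subgroup.mem_center_iff]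
    exact fun y => hcen q hq y) j.range (by rw [hker, inf_comm]; exact hQ)
    (fun a b => com_mem hE a b) k hp (by rw [hker]; exact hQc) z hE.cl hE.supp c 0
  have a2 := Pool.Agent.Y210.NV3.nw_comap π hπ h5 p red (⊥ : Subgroup (M ⧸ Q)) z hE.cl c
  have a3 : (⊥ : Subgroup (M ⧸ Q)).comap π = Q := hker
  rw [a3, nw_bot] at a2
  rw [← a2, zero_add] at a1
  have a4 := cliff_emb h4 (p := p) red j z hE c k
  rw [a1] at a4
  have hfin : Finite {θ : C → ℂ // IsIrreducibleCharacter θ ∧
      centralValue red θ (fun x => z (j x)) = c} := irr_cv_fin _ fun θ h => h.1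
  have _i := Fintype.ofFinite {θ : C → ℂ // IsIrreducibleCharacter θ ∧
      centralValue red θ (fun x => z (j x)) = c}
  have hpos : 0 < Nat.card C * p ^ k := Nat.mul_pos Nat.card_pos (pow_pos hp.pos k)
  apply Nat.eq_of_mul_eq_mul_left hpos
  have a5 : Nat.card C * p ^ k * (Nat.card M * Nw p red Q z c) =
      Nat.card M * Nat.card C * (p ^ k * Nw p red Q z c) := by ring
  rw [a5, a4]
  rw [fs_sub (P := fun θ : C → ℂ => IsIrreducibleCharacter θ ∧
      centralValue red θ (fun x => z (j x)) = c) (fun θ h => ⟨h.1, h.2.2⟩)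
      (fun θ => (stc j θ) ^ 2),
    fs_sub (P := fun θ : C → ℂ => IsIrreducibleCharacter θ ∧
      centralValue red θ (fun x => z (j x)) = c) (fun θ h => ⟨h.1.irr, h.2⟩)
      (fun θ => if (tt j θ).factorization p = k then Nat.card C * pc p (tt j θ) else 0)]
  rw [finsum_eq_sum_of_fintype, finsum_eq_sum_of_fintype, Finset.mul_sum]
  refine Finset.sum_congr rfl fun θ _ => ?_
  obtain ⟨θ, hθ, hc⟩ := θ
  have hcl := irr_cl hθ
  obtain ⟨b1, b2⟩ := stc_eq hE.inj hn hcl
  have hle : j.range ≤ stK j hE.inj hn θ := range_le_stK hcl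
  have hQle : Q ≤ stK j hE.inj hn θ := by
    intro q hq x y hxy
    rw [← hcen q hq (j x), mul_inv_cancel_right] at hxy
    rw [hE.inj hxy]
  have b3 : p ^ k ∣ tt j θ := by
    have h1 := Subgroup.relIndex_mul_relIndex j.range (j.range ⊔ Q) (stK j hE.inj hn θ)
      le_sup_left (sup_le hle hQle)
    rw [Pool.Agent.R674.Ce.relIndex_card (by rw [inf_comm]; exact hQ), hQc, ← b2] at h1
    exact ⟨_, h1.symm⟩
  have b4 : tt j θ ≠ 0 := by
    rw [b2]
    exact (j.range.subgroupOf (stK j hE.inj hn θ)).index_ne_zero_of_finite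
  have b5 : k ≤ (tt j θ).factorization p := (hp.pow_dvd_iff_le_factorization b4).1 b3
  have b6 := dg_le (p := p) hθ
  have b7 : (IsIrreducibleCharacter θ ∧ Dg p k (stc j θ) θ ∧
      centralValue red θ (fun x => z (j x)) = c) ↔
      ((IsWt p (⊥ : Subgroup C) θ ∧ centralValue red θ (fun x => z (j x)) = c) ∧
        (tt j θ).factorization p = k) := by
    rw [Dg_iff hθ, wt_bot_iff hθ, b1, Nat.factorization_mul Nat.card_pos.ne' b4,
      Finsupp.add_apply]
    constructor
    · rintro ⟨_, h1, h2⟩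
      exact ⟨⟨by omega, h2⟩, by omega⟩
    · rintro ⟨⟨h1, h2⟩, h3⟩
      exact ⟨hθ, by omega, h2⟩
  change (@ite ℕ (IsIrreducibleCharacter θ ∧ Dg p k (stc j θ) θ ∧
      centralValue red θ (fun x => z (j x)) = c) (Classical.propDecidable _)
        ((stc j θ) ^ 2) 0) = Nat.card C * p ^ k *
      (@ite ℕ (IsWt p (⊥ : Subgroup C) θ ∧ centralValue red θ (fun x => z (j x)) = c)
        (Classical.propDecidable _)
        (if (tt j θ).factorization p = k then Nat.card C * pc p (tt j θ) else 0) 0)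
  by_cases h1 : (IsWt p (⊥ : Subgroup C) θ ∧ centralValue red θ (fun x => z (j x)) = c)
  · rw [if_pos h1]
    by_cases h2 : (tt j θ).factorization p = k
    · rw [if_pos h2, if_pos (b7.2 ⟨h1, h2⟩), b1]
      unfold pc
      rw [h2]
      obtain ⟨t, ht⟩ := b3
      rw [ht, Nat.mul_div_cancel_left _ (pow_pos hp.pos k)]
      ring
    · rw [if_neg h2, mul_zero, if_neg (fun h3 => h2 (b7.1 h3).2)]
  · rw [if_neg h1, mul_zero, if_neg (fun h3 => h1 (b7.1 h3).1)]

end

end Pool.Agent.N348.EWDZR
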