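import Pool.Agent.N348.EW.A

/-!
Project EW, part DZR: conjugation and the relation between the characters of defect zero.
-/

set_option autoImplicit false
set_option linter.unusedSectionVars false

open scoped Classical BigOperators

noncomputable section

namespace Pool.Agent.N348.EWDZR

open Pool.Agent.Y63.NV
open Pool.Agent.Y63.KR
open Pool.Agent.Y63.AWC (IsIrreducibleCharacter)
open Pool.Agent.N20.EW
open Pool.Agent.N20.KB (irr_comp')

theorem mem_conj {K : Type} [Group K] {k x : K} {Q : Subgroup K} :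
    x ∈ conjSub k Q ↔ ∃ q ∈ Q, k * q * k⁻¹ = x := Iff.rfl

section

variable {G K : Type} [Group G] [Group K] (i : G →* K) (hi : Function.Injective i)
  (hn : i.range.Normal)

/-- the automorphism of `G` given by the conjugation with `k` -/
def ak (k : K) : G ≃* G :=
  have := hn
  (MonoidHom.ofInjective hi).trans
    ((MulAut.conjNormal k : MulAut i.range).trans (MonoidHom.ofInjective hi).symm)

theorem ak_spec (k : K) (x : G) : i (ak i hi hn k x) = k * i x * k⁻¹ := by
  have := hn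
  have h1 : ∀ y : i.range, i ((MonoidHom.ofInjective hi).symm y) = y := fun y =>
    congrArg Subtype.val ((MonoidHom.ofInjective hi).apply_symm_apply y)
  show i ((MonoidHom.ofInjective hi).symm ((MulAut.conjNormal k : MulAut i.range)
    (MonoidHom.ofInjective hi x))) = _
  rw [h1, MulAut.conjNormal_apply]
  rfl

theorem ak_symm (k : K) (x : G) : i ((ak i hi hn k).symm x) = k⁻¹ * i x * k := by
  have h := ak_spec i hi hn k ((ak i hi hn k).symm x)
  rw [MulEquiv.apply_symm_apply] at h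
  rw [h]
  group

theorem ak_eq {k : K} {x y : G} (h : i y = k * i x * k⁻¹) : y = ak i hi hn k x := by
  apply hi
  rw [h, ak_spec]

theorem ak_conj {f : G → ℂ} (hf : ∀ g x : G, f (g * x * g⁻¹) = f x) (g x : G) :
    f ((ak i hi hn (i g)).symm x) = f x := by
  have h : (ak i hi hn (i g)).symm x = g⁻¹ * x * g⁻¹⁻¹ := by
    apply hi
    rw [ak_symm, map_mul, map_mul, inv_inv, map_inv]
  rw [h, hf]

theorem mem_CQ {Q : Subgroup K} {x : G} : x ∈ CQ i Q ↔ ∀ q ∈ Q, q * i x = i x * q := by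
  rw [Subgroup.mem_comap, Subgroup.mem_centralizer_iff]
  rfl

/-- conjugation of the centralisers -/
def ck {Q Q' : Subgroup K} {k : K} (H : Q' = conjSub k Q) : CQ i Q ≃* CQ i Q' where
  toFun x := ⟨ak i hi hn k x, by
    rw [mem_CQ]
    intro q' hq'
    rw [H, mem_conj] at hq'
    obtain ⟨q, hq, rfl⟩ := hq'
    rw [ak_spec]
    have h := (mem_CQ i).1 x.2 q hq
    calc k * q * k⁻¹ * (k * i x * k⁻¹) = k * (q * i x) * k⁻¹ := by group
      _ = k * (i x * q) * k⁻¹ := by rw [h]
      _ = k * i x * k⁻¹ * (k * q * k⁻¹) := by group⟩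
  invFun y := ⟨(ak i hi hn k).symm y, by
    rw [mem_CQ]
    intro q hq
    rw [ak_symm]
    have h := (mem_CQ i).1 y.2 (k * q * k⁻¹) (by rw [H, mem_conj]; exact ⟨q, hq, rfl⟩)
    calc q * (k⁻¹ * i y * k) = k⁻¹ * (k * q * k⁻¹ * i y) * k := by group
      _ = k⁻¹ * (i y * (k * q * k⁻¹)) * k := by rw [h]
      _ = k⁻¹ * i y * k * q := by group⟩
  left_inv x := Subtype.ext (MulEquiv.symm_apply_apply _ _)
  right_inv y := Subtype.ext (MulEquiv.apply_symm_apply _ _)
  map_mul' x y := Subtype.ext (map_mul _ _ _)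

variable {F : Type} [Field F] (red : integralClosure ℤ ℂ →+* F) [Finite G] [Finite K]

theorem wt_comp {p : ℕ} {J J' : Type} [Group J] [Group J'] (e : J ≃* J') {χ : J' → ℂ}
    (h : IsWt p (⊥ : Subgroup J') χ) : IsWt p (⊥ : Subgroup J) (fun x => χ (e x)) :=
  Pool.Agent.Y286.NV.isWt_comp e (fun x => by
    rw [Subgroup.mem_bot, Subgroup.mem_bot, MulEquiv.map_eq_one_iff]) h

theorem rel_conj {Q Q' : Subgroup K} {k : K} (H : Q' = conjSub k Q) {ψ : G → ℂ}
    {θ : CQ i Q → ℂ} (hψ : IsIrreducibleCharacter ψ) (hθ : IsIrreducibleCharacter θ)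
    (hR : Rel red i Q ψ θ) :
    Rel red i Q' (fun x => ψ ((ak i hi hn k).symm x)) (fun y => θ ((ck i hi hn H).symm y)) := by
  intro f hf hinv
  have hf1 : IsClassFun (fun x => f (ak i hi hn k x)) := by
    intro g x
    show f (ak i hi hn k (g * x * g⁻¹)) = f (ak i hi hn k x)
    rw [map_mul, map_mul, map_inv]
    exact hf _ _
  have e1 := Pool.Agent.Y286.NV.centralValue_comp red (ak i hi hn k).symm ψ
    (Pool.Agent.Y286.NV.irr_class hψ) (fun x => f (ak i hi hn k x)) hf1
  have e2 : (fun x => f (ak i hi hn k ((ak i hi hn k).symm x))) = f := by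
    funext x
    rw [MulEquiv.apply_symm_apply]
  rw [e2] at e1
  have hf2 : IsClassFun (fun x : CQ i Q => f (ak i hi hn k x)) := fun g x => hf1 g x
  have e3 := Pool.Agent.Y286.NV.centralValue_comp red (ck i hi hn H).symm θ
    (Pool.Agent.Y286.NV.irr_class hθ) (fun x : CQ i Q => f (ak i hi hn k x)) hf2
  have e4 : (fun y : CQ i Q' => f (ak i hi hn k ((ck i hi hn H).symm y : CQ i Q))) =
      fun y : CQ i Q' => f y := by
    funext y
    have h1 : ((ck i hi hn H).symm y : CQ i Q) = (ak i hi hn k).symm (y : G) := rfl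
    rw [h1, MulEquiv.apply_symm_apply]
  rw [e4] at e3
  rw [e1, e3]
  refine hR _ hf1 ?_
  intro q hq x y hxy
  refine hinv (k * q * k⁻¹) (by rw [H, mem_conj]; exact ⟨q, hq, rfl⟩) _ _ ?_
  rw [ak_spec, ak_spec, hxy]
  group

end

section

variable {G K : Type} [Group G] [Group K] [Finite G] [Finite K] {i : G →* K}

/-- the embedding into the normaliser -/
def jQ (i : G →* K) (Q : Subgroup K) : CQ i Q →* Subgroup.normalizer (Q : Set K) where
  toFun x := ⟨i x, Subgroup.centralizer_le_normalizer _ x.2⟩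
  map_one' := Subtype.ext (map_one i)
  map_mul' x y := Subtype.ext (map_mul i _ _)

theorem mem_nor {Q : Subgroup K} {m : K} :
    m ∈ Subgroup.normalizer (Q : Set K) ↔ Q = conjSub m Q := by
  rw [Subgroup.mem_normalizer_iff]
  constructor
  · intro h
    ext x
    rw [mem_conj]
    constructor
    · intro hx
      refine ⟨m⁻¹ * x * m, ?_, by group⟩
      refine (h _).2 ?_
      have : m * (m⁻¹ * x * m) * m⁻¹ = x := by group
      rw [this]
      exact hx
    · rintro ⟨q, hq, rfl⟩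
      exact (h q).1 hq
  · intro h x
    constructor
    · intro hx
      rw [h, mem_conj]
      exact ⟨x, hx, rfl⟩
    · intro hx
      rw [h, mem_conj] at hx
      obtain ⟨q, hq, h2⟩ := hx
      have : q = x := mul_left_cancel (mul_right_cancel h2)
      rw [← this]
      exact hq

/-- an element of `G` which normalises `Q` centralises `Q` -/
theorem nor_cen (hn : i.range.Normal) {Q : Subgroup K} (hQ : Q ⊓ i.range = ⊥) {g : G}
    (hg : i g ∈ Subgroup.normalizer (Q : Set K)) : g ∈ CQ i Q := by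
  rw [mem_CQ]
  intro q hq
  have h1 : i g * q * (i g)⁻¹ * q⁻¹ ∈ Q ⊓ i.range := by
    refine Subgroup.mem_inf.2 ⟨Q.mul_mem ((Subgroup.mem_normalizer_iff.1 hg q).1 hq)
      (Q.inv_mem hq), ?_⟩
    have h2 : i g * q * (i g)⁻¹ * q⁻¹ = i g * (q * (i g)⁻¹ * q⁻¹) := by group
    rw [h2]
    exact i.range.mul_mem ⟨g, rfl⟩ (hn.conj_mem _ (i.range.inv_mem ⟨g, rfl⟩) q)
  rw [hQ, Subgroup.mem_bot] at h1
  calc q * i g = i g * q * (i g)⁻¹ * q⁻¹ * q * i g := by rw [h1, one_mul]
    _ = i g * q := by group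

/-- the class of a function under the conjugation with the elements of `Q` -/
theorem QI_iff (hi : Function.Injective i) (hn : i.range.Normal) {Q : Subgroup K} {ψ : G → ℂ} :
    (∀ q ∈ Q, ∀ x y : G, i y = q * i x * q⁻¹ → ψ y = ψ x) ↔ Q ≤ stK i hi hn ψ := Iff.rfl

/-- a member of the stabiliser fixes the function -/
theorem fix_of_mem (hi : Function.Injective i) (hn : i.range.Normal) {k : K} {ψ : G → ℂ}
    (h : k ∈ stK i hi hn ψ) : (fun x => ψ ((ak i hi hn k).symm x)) = ψ := by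
  funext x
  refine (h ((ak i hi hn k).symm x) x ?_).symm
  rw [ak_symm]
  group

theorem mem_of_fix (hi : Function.Injective i) (hn : i.range.Normal) {k : K} {ψ : G → ℂ}
    (h : (fun x => ψ ((ak i hi hn k).symm x)) = ψ) : k ∈ stK i hi hn ψ := by
  intro x y hxy
  have h1 := ak_eq i hi hn hxy
  have h2 := congrFun h y
  change ψ ((ak i hi hn k).symm y) = ψ y at h2
  rw [← h2, h1, MulEquiv.symm_apply_apply]

theorem conj_inv {Q : Subgroup K} (hi : Function.Injective i) (hn : i.range.Normal) {k : K}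
    {ψ : G → ℂ} (h : Q ≤ stK i hi hn ψ) :
    conjSub k Q ≤ stK i hi hn (fun x => ψ ((ak i hi hn k).symm x)) := by
  intro q' hq'
  obtain ⟨q, hq, rfl⟩ := mem_conj.1 hq'
  intro x y hxy
  refine h hq _ _ ?_
  rw [ak_symm, ak_symm, hxy]
  group

theorem conj_disj {Q : Subgroup K} (hn : i.range.Normal) {k : K} (hQ : Q ⊓ i.range = ⊥) :
    conjSub k Q ⊓ i.range = ⊥ := by
  rw [eq_bot_iff]
  intro x hx
  obtain ⟨h1, h2⟩ := Subgroup.mem_inf.1 hx
  obtain ⟨q, hq, rfl⟩ := mem_conj.1 h1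
  have h3 : q ∈ Q ⊓ i.range := by
    refine Subgroup.mem_inf.2 ⟨hq, ?_⟩
    have h4 := hn.conj_mem _ h2 k⁻¹
    have h5 : k⁻¹ * (k * q * k⁻¹) * k⁻¹⁻¹ = q := by group
    rw [h5] at h4
    exact h4
  rw [hQ, Subgroup.mem_bot] at h3
  rw [h3, Subgroup.mem_bot]
  group

theorem conj_sup {Q : Subgroup K} (hcom : ∀ a b : K, a * b * a⁻¹ * b⁻¹ ∈ i.range) {k : K} :
    i.range ⊔ conjSub k Q = i.range ⊔ Q := by
  apply le_antisymm
  · refine sup_le le_sup_left ?_
    intro x hx
    obtain ⟨q, hq, rfl⟩ := mem_conj.1 hx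
    have h : k * q * k⁻¹ = k * q * k⁻¹ * q⁻¹ * q := by group
    rw [h]
    exact Subgroup.mul_mem _ ((le_sup_left : i.range ≤ i.range ⊔ Q) (hcom k q))
      ((le_sup_right : Q ≤ i.range ⊔ Q) hq)
  · refine sup_le le_sup_left ?_
    intro q hq
    have h : q = (k * q * k⁻¹ * q⁻¹)⁻¹ * (k * q * k⁻¹) := by group
    rw [h]
    exact Subgroup.mul_mem _ ((le_sup_left : i.range ≤ i.range ⊔ conjSub k Q)
      (i.range.inv_mem (hcom k q))) ((le_sup_right : conjSub k Q ≤ i.range ⊔ conjSub k Q)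
        (mem_conj.2 ⟨q, hq, rfl⟩))

theorem conj_pg {p : ℕ} {Q : Subgroup K} {k : K} (h : IsPGroup p Q) :
    IsPGroup p (conjSub k Q) := h.map _

theorem conj_card {Q : Subgroup K} {k : K} : Nat.card (conjSub k Q) = Nat.card Q :=
  (Nat.card_congr (Q.equivMapOfInjective _ (MulAut.conj k).injective).toEquiv).symm

theorem jQ_inj (hi : Function.Injective i) (Q : Subgroup K) : Function.Injective (jQ i Q) :=
  fun x y h => Subtype.ext (hi (congrArg Subtype.val h))

theorem mem_jQ (hn : i.range.Normal) {Q : Subgroup K} (hQ : Q ⊓ i.range = ⊥)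
    (x : Subgroup.normalizer (Q : Set K)) : x ∈ (jQ i Q).range ↔ (x : K) ∈ i.range := by
  constructor
  · rintro ⟨y, rfl⟩
    exact ⟨y, rfl⟩
  · rintro ⟨g, hg⟩
    exact ⟨⟨g, nor_cen hn hQ (by rw [hg]; exact x.2)⟩, Subtype.ext hg⟩

theorem jQ_nor (hn : i.range.Normal) {Q : Subgroup K} (hQ : Q ⊓ i.range = ⊥) :
    (jQ i Q).range.Normal := by
  constructor
  intro x hx g
  rw [mem_jQ hn hQ] at hx ⊢
  exact hn.conj_mem _ hx g

end

end Pool.Agent.N348.EWDZR
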