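import Pool.Agent.N348.EW.B

/-!
Project EW, part DZR: stabilisers and orbits.
-/

set_option autoImplicit false
set_option linter.unusedSectionVars false
set_option linter.unusedVariables false

open scoped Classical BigOperators

noncomputable section

namespace Pool.Agent.N348.EWDZR

open Pool.Agent.Y63.NV
open Pool.Agent.Y63.KR
open Pool.Agent.Y63.AWC (IsIrreducibleCharacter)
open Pool.Agent.N20.EW
open Pool.Agent.N20.KB (irr_comp')

section

variable {G K : Type} [Group G] [Group K] [Finite G] [Finite K] {i : G →* K}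
  {F : Type} [Field F] {z : K → F}

/-- the normaliser is a cyclic extension of the centraliser -/
theorem cyc_jQ (hE : CycExt i z) {Q : Subgroup K} (hQ : Q ⊓ i.range = ⊥) :
    CycExt (jQ i Q) (fun x : Subgroup.normalizer (Q : Set K) => z x) where
  inj := jQ_inj hE.inj Q
  normal := jQ_nor hE.normal hQ
  cyc := by
    have hn := hE.normal
    have hcy := cyc_quot hE
    let f : Subgroup.normalizer (Q : Set K) →* K ⧸ i.range :=
      (QuotientGroup.mk' i.range).comp (Subgroup.subtype _)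
    obtain ⟨⟨_, t, rfl⟩, ht⟩ := IsCyclic.exists_generator (α := f.range)
    refine ⟨t, fun k => ?_⟩
    obtain ⟨n, hn1⟩ := ht ⟨f k, k, rfl⟩
    have h1 : f t ^ n = f k := congrArg Subtype.val hn1
    have h2 : f (t ^ (-n) * k) = 1 := by
      rw [map_mul, map_zpow, zpow_neg, h1, inv_mul_cancel]
    have h3 : ((t ^ (-n) * k : Subgroup.normalizer (Q : Set K)) : K) ∈ i.range :=
      (QuotientGroup.eq_one_iff _).1 h2
    rw [← mem_jQ hn hQ] at h3
    obtain ⟨g, hg⟩ := h3
    refine ⟨n, g, ?_⟩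
    rw [hg, ← mul_assoc, ← zpow_add, add_neg_cancel, zpow_zero, one_mul]
  cl := fun g x => hE.cl g x
  supp := fun x hx => hE.supp x fun h => hx ((mem_jQ hE.normal hQ x).2 h)

theorem cyc_unique {A : Type} [Group A] [Finite A] [IsCyclic A] {P P' : Subgroup A}
    (h : Nat.card P = Nat.card P') : P = P' := by
  have _i : Fintype A := Fintype.ofFinite A
  have hX : ∀ R : Subgroup A, Nat.card R = Nat.card P →
      (R : Set A).toFinset = Finset.univ.filter (fun a : A => a ^ Nat.card P = 1) := by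
    intro R hR
    apply Finset.eq_of_subset_of_card_le
    · intro a ha
      rw [Set.mem_toFinset] at ha
      rw [Finset.mem_filter]
      refine ⟨Finset.mem_univ _, ?_⟩
      rw [← hR]
      have := pow_card_eq_one' (x := (⟨a, ha⟩ : R))
      exact congrArg Subtype.val this
    · refine (IsCyclic.card_pow_eq_one_le Nat.card_pos).trans ?_
      rw [← hR, Set.toFinset_card, ← Nat.card_eq_fintype_card]
      exact le_of_eq rfl
  have h1 : (P : Set A).toFinset = (P' : Set A).toFinset := by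
    rw [hX P rfl, hX P' h.symm]
  exact SetLike.coe_injective (Set.toFinset_inj.1 h1)

theorem card_map_mk [i.range.Normal] {Q : Subgroup K} (hQ : Q ⊓ i.range = ⊥) :
    Nat.card (Q.map (QuotientGroup.mk' i.range)) = Nat.card Q := by
  rw [← Subgroup.relIndex_ker, QuotientGroup.ker_mk', ← Subgroup.inf_relIndex_right, inf_comm, hQ,
    Subgroup.relIndex_bot_left]

/-- the subgroups which meet `G` trivially are determined by their order modulo `G` -/
theorem sup_unique (hE : CycExt i z) {Q Q' : Subgroup K} (hQ : Q ⊓ i.range = ⊥)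
    (hQ' : Q' ⊓ i.range = ⊥) (h : Nat.card Q = Nat.card Q') :
    i.range ⊔ Q = i.range ⊔ Q' := by
  have hn := hE.normal
  have hcy := cyc_quot hE
  have h1 : Q.map (QuotientGroup.mk' i.range) = Q'.map (QuotientGroup.mk' i.range) := by
    apply cyc_unique
    rw [card_map_mk hQ, card_map_mk hQ', h]
  have h2 : ∀ R : Subgroup K, (R.map (QuotientGroup.mk' i.range)).comap
      (QuotientGroup.mk' i.range) = i.range ⊔ R := by
    intro R
    rw [Subgroup.comap_map_eq, QuotientGroup.ker_mk', sup_comm]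
  rw [← h2, h1, h2]

end

section

variable {G K : Type} [Group G] [Group K] [Finite G] [Finite K] {i : G →* K} {p : ℕ}
  [Fact p.Prime] {F : Type} [Field F] [IsAlgClosed F] [CharP F p]
  {red : integralClosure ℤ ℂ →+* F}

theorem fix_theta (h3 : S_D3) (hi : Function.Injective i) (hn : i.range.Normal) {Q : Subgroup K}
    (hQp : IsPGroup p Q) (hQ : Q ⊓ i.range = ⊥) {ψ : G → ℂ} {θ : CQ i Q → ℂ}
    (hψ : IsWt p (⊥ : Subgroup G) ψ) (hinv : Q ≤ stK i hi hn ψ)
    (hθ : IsWt p (⊥ : Subgroup (CQ i Q)) θ) (hR : Rel red i Q ψ θ) {m : K}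
    (H : Q = conjSub m Q) (hm : m ∈ stK i hi hn ψ) :
    (fun y => θ ((ck i hi hn H).symm y)) = θ := by
  have e1 := rel_conj i hi hn red H hψ.irr hθ.irr hR
  rw [fix_of_mem hi hn hm] at e1
  exact (h3 p F red G K i hi hn Q hQp hQ ψ θ hψ hinv hθ hR).2.1 _
    (wt_comp (ck i hi hn H).symm hθ) e1

theorem fix_psi (h3 : S_D3) (hi : Function.Injective i) (hn : i.range.Normal) {Q : Subgroup K}
    (hQp : IsPGroup p Q) (hQ : Q ⊓ i.range = ⊥) {ψ : G → ℂ} {θ : CQ i Q → ℂ}
    (hψ : IsWt p (⊥ : Subgroup G) ψ) (hinv : Q ≤ stK i hi hn ψ)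
    (hθ : IsWt p (⊥ : Subgroup (CQ i Q)) θ) (hR : Rel red i Q ψ θ) {m : K}
    (H : Q = conjSub m Q) (hm : (fun y => θ ((ck i hi hn H).symm y)) = θ) :
    m ∈ stK i hi hn ψ := by
  have e1 := rel_conj i hi hn red H hψ.irr hθ.irr hR
  rw [hm] at e1
  apply mem_of_fix hi hn
  refine (h3 p F red G K i hi hn Q hQp hQ ψ θ hψ hinv hθ hR).1 _
    (wt_comp (ak i hi hn m).symm hψ) ?_ e1
  have h1 := conj_inv hi hn (k := m) hinv
  rw [← H] at h1
  exact h1

theorem mem_stK_jQ (hi : Function.Injective i) (hn : i.range.Normal) {Q : Subgroup K}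
    (hQ : Q ⊓ i.range = ⊥) {θ : CQ i Q → ℂ} (m : Subgroup.normalizer (Q : Set K))
    (H : Q = conjSub (m : K) Q) :
    m ∈ stK (jQ i Q) (jQ_inj hi Q) (jQ_nor hn hQ) θ ↔
      (fun y => θ ((ck i hi hn H).symm y)) = θ := by
  constructor
  · intro h
    funext y
    refine (h ((ck i hi hn H).symm y) y ?_).symm
    apply Subtype.ext
    show i y = (m : K) * i ((ak i hi hn m).symm y) * (m : K)⁻¹
    rw [ak_symm]
    group
  · intro h x y hxy
    have h1 : i y = (m : K) * i x * (m : K)⁻¹ := congrArg Subtype.val hxy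
    have h2 := ak_eq i hi hn h1
    have h3 : (ck i hi hn H).symm y = x := by
      apply Subtype.ext
      show (ak i hi hn m).symm y = x
      rw [h2, MulEquiv.symm_apply_apply]
    have h4 := congrFun h y
    change θ ((ck i hi hn H).symm y) = θ y at h4
    rw [← h4, h3]

/-- **the stabilisers have the same order modulo `G`** -/
theorem tt_eq (h3 : S_D3) (hi : Function.Injective i) (hn : i.range.Normal)
    (hcom : ∀ a b : K, a * b * a⁻¹ * b⁻¹ ∈ i.range) {Q : Subgroup K}
    (hQp : IsPGroup p Q) (hQ : Q ⊓ i.range = ⊥) {ψ : G → ℂ} {θ : CQ i Q → ℂ}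
    (hψ : IsWt p (⊥ : Subgroup G) ψ) (hinv : Q ≤ stK i hi hn ψ)
    (hθ : IsWt p (⊥ : Subgroup (CQ i Q)) θ) (hR : Rel red i Q ψ θ) :
    tt (jQ i Q) θ = tt i ψ := by
  have hclψ := irr_cl hψ.irr
  have hclθ := irr_cl hθ.irr
  set St := stK (jQ i Q) (jQ_inj hi Q) (jQ_nor hn hQ) θ with hSt
  set L : Subgroup K := St.map (Subgroup.subtype _) with hL
  have hLc : Nat.card L = stc (jQ i Q) θ :=
    (Nat.card_congr (St.equivMapOfInjective _ (Subgroup.subtype_injective _)).toEquiv).symm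
  have hsup : i.range ⊔ L = stK i hi hn ψ := by
    apply le_antisymm
    · refine sup_le (range_le_stK hclψ) ?_
      rintro _ ⟨m, hm, rfl⟩
      have H := mem_nor.1 m.2
      exact fix_psi h3 hi hn hQp hQ hψ hinv hθ hR H ((mem_stK_jQ hi hn hQ m H).1 hm)
    · intro k hk
      have e1 := rel_conj i hi hn red (rfl : conjSub k Q = conjSub k Q) hψ.irr hθ.irr hR
      rw [fix_of_mem hi hn hk] at e1
      obtain ⟨g, hg⟩ := (h3 p F red G K i hi hn Q hQp hQ ψ θ hψ hinv hθ hR).2.2 (conjSub k Q)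
        (conj_pg hQp) (conj_disj hn hQ) (conj_sup hcom) _
        (wt_comp (ck i hi hn (rfl : conjSub k Q = conjSub k Q)).symm hθ) e1
      have H : Q = conjSub ((i g)⁻¹ * k) Q := by
        rw [conjSub_mul, hg, ← conjSub_mul, inv_mul_cancel, conjSub_one]
      have hm : (i g)⁻¹ * k ∈ stK i hi hn ψ :=
        Subgroup.mul_mem _ (Subgroup.inv_mem _ (range_le_stK hclψ ⟨g, rfl⟩)) hk
      have h1 := fix_theta h3 hi hn hQp hQ hψ hinv hθ hR H hm
      have h2 : (i g)⁻¹ * k ∈ L :=
        ⟨⟨(i g)⁻¹ * k, mem_nor.2 H⟩, (mem_stK_jQ hi hn hQ ⟨_, mem_nor.2 H⟩ H).2 h1, rfl⟩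
      have h4 : k = i g * ((i g)⁻¹ * k) := by group
      rw [h4]
      exact Subgroup.mul_mem _ ((le_sup_left : i.range ≤ i.range ⊔ L) ⟨g, rfl⟩)
        ((le_sup_right : L ≤ i.range ⊔ L) h2)
  have hinf : i.range ⊓ L = (CQ i Q).map i := by
    ext x
    constructor
    · intro hx
      obtain ⟨⟨g, rfl⟩, ⟨m, hm, h2⟩⟩ := Subgroup.mem_inf.1 hx
      refine ⟨g, nor_cen hn hQ ?_, rfl⟩
      rw [← h2]
      exact m.2
    · rintro ⟨g, hg, rfl⟩
      refine Subgroup.mem_inf.2 ⟨⟨g, rfl⟩, ?_⟩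
      exact ⟨jQ i Q ⟨g, hg⟩, range_le_stK (hi := jQ_inj hi Q) (hn := jQ_nor hn hQ) hclθ
        ⟨⟨g, hg⟩, rfl⟩, rfl⟩
  have hinfc : Nat.card ↥(i.range ⊓ L) = Nat.card (CQ i Q) := by
    rw [hinf]
    exact (Nat.card_congr ((CQ i Q).equivMapOfInjective i hi).toEquiv).symm
  have h4 := Subgroup.relIndex_mul_relIndex (⊥ : Subgroup K) (i.range ⊓ L) L bot_le inf_le_right
  rw [Subgroup.relIndex_bot_left, Subgroup.relIndex_bot_left, Subgroup.inf_relIndex_right, hinfc,
    hLc, (stc_eq (jQ_inj hi Q) (jQ_nor hn hQ) hclθ).1] at h4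
  have h5 := Nat.eq_of_mul_eq_mul_left Nat.card_pos h4
  rw [← h5, (stc_eq hi hn hclψ).2, ← hsup, Subgroup.relIndex_sup_left]

end

end Pool.Agent.N348.EWDZR
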